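import Pool.Agent.Lib.GBC.EDef

/-!
Module E.BasA of GBC. The integral closure `RA` of `k[t]` in `K`: Dedekind domain with fraction field
`K`, free of rank `d = [K : k(t)]` over `k[t]`.

PROOF. `letI := (cX k K).toAlgebra` makes `K` a `k[X]`-algebra, a scalar tower over `k(t)`; `RA` is
`integralClosure k[X] K` (the same carrier; `k[X]` is integrally closed with fraction field `k(t)`).
`integralClosure.isDedekindDomain k[X] (RatFunc k) K`, `integralClosure.isFractionRing_of_finite_extension`,
`IsIntegralClosure.isNoetherian`, `integralClosure.module_free`/`IsIntegralClosure.module_free` (`k[X]` is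
a PID, `K` finite separable), `IsIntegralClosure.rank`. Transport along the equality of the underlying
rings (a ring isomorphism `RA ≃+* integralClosure k[X] K` which is the identity on elements,
`IsDedekindDomain` along a `RingEquiv`). The basis `b`: a `k[X]`-basis of the integral closure is a
`k(t)`-basis of `K` (`Module.Basis.localizationLocalization` / `IsLocalization`), with index type of
cardinality `d`.
-/

set_option autoImplicit false

open Polynomial

namespace Pool.Agent.GBC

open Pool.Agent.BSDP Pool.Agent.BSDFF Pool.Agent.HYP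

variable (k K : Type) [Field k] [Field K] [Algebra k K] [Algebra (RatFunc k) K]
  [IsScalarTower k (RatFunc k) K] [FiniteDimensional (RatFunc k) K]
  [Algebra.IsSeparable (RatFunc k) K]

/-- `K` over `k[t]` -/
private noncomputable abbrev BasA_alg : Algebra k[X] K := (cX k K).toAlgebra

/-- `RA` over `k[t]` -/
private noncomputable abbrev BasA_algR : Algebra k[X] (RA k K) :=
  ((cX k K).codRestrict (RA k K) (fun _ => RingHom.isIntegralElem_map _)).toAlgebra

private theorem BasA_tower :
    letI := BasA_alg k K
    IsScalarTower k[X] (RatFunc k) K := by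
  letI := BasA_alg k K
  exact IsScalarTower.of_algebraMap_eq (fun _ => rfl)

private theorem BasA_towerR :
    letI := BasA_alg k K
    letI := BasA_algR k K
    IsScalarTower k[X] (RA k K) K := by
  letI := BasA_alg k K
  letI := BasA_algR k K
  exact IsScalarTower.of_algebraMap_eq (fun _ => rfl)

private theorem BasA_closure :
    letI := BasA_alg k K
    IsIntegralClosure (RA k K) k[X] K := by
  letI := BasA_alg k K
  refine ⟨Subtype.coe_injective, fun {x} => ⟨fun h => ⟨⟨x, h⟩, rfl⟩, ?_⟩⟩
  rintro ⟨y, rfl⟩
  exact y.2

private theorem BasA_tf :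
    letI := BasA_alg k K
    Module.IsTorsionFree k[X] K := by
  letI := BasA_alg k K
  haveI := BasA_tower k K
  exact .trans_faithfulSMul k[X] (RatFunc k) K

theorem dedRA : IsDedekindDomain (RA k K) := by
  letI := BasA_alg k K
  letI := BasA_algR k K
  haveI := BasA_tower k K
  haveI := BasA_towerR k K
  haveI := BasA_closure k K
  exact IsIntegralClosure.isDedekindDomain k[X] (RatFunc k) K (RA k K)

theorem fracRA : IsFractionRing (RA k K) K := by
  letI := BasA_alg k K
  letI := BasA_algR k K
  haveI := BasA_tower k K
  haveI := BasA_towerR k K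
  haveI := BasA_closure k K
  exact IsIntegralClosure.isFractionRing_of_finite_extension k[X] (RatFunc k) K (RA k K)

theorem basA : ∃ b : Module.Basis (Fin (Module.finrank (RatFunc k) K)) (RatFunc k) K,
    ∀ x : K, x ∈ RA k K ↔ ∃ p : Fin (Module.finrank (RatFunc k) K) → k[X],
      x = ∑ i, cX k K (p i) * b i := by
  letI := BasA_alg k K
  letI := BasA_algR k K
  haveI := BasA_tower k K
  haveI := BasA_towerR k K
  haveI := BasA_closure k K
  haveI := BasA_tf k K
  haveI : Module.Free k[X] (RA k K) :=
    IsIntegralClosure.module_free k[X] (RatFunc k) K (RA k K)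
  haveI : Module.Finite k[X] (RA k K) :=
    IsIntegralClosure.finite k[X] (RatFunc k) K (RA k K)
  have hr : Module.finrank k[X] (RA k K) = Module.finrank (RatFunc k) K :=
    IsIntegralClosure.rank k[X] (RatFunc k) K (RA k K)
  let B₀ : Module.Basis (Fin (Module.finrank (RatFunc k) K)) k[X] (RA k K) :=
    (Module.finBasis k[X] (RA k K)).reindex (finCongr hr)
  have hli : LinearIndependent k[X] (fun i => (B₀ i : K)) := by
    have h1 := B₀.linearIndependent
    exact h1.map' (Algebra.linearMap (RA k K) K |>.restrictScalars k[X])
      (LinearMap.ker_eq_bot.mpr Subtype.coe_injective)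
  have hli' : LinearIndependent (RatFunc k) (fun i => (B₀ i : K)) :=
    (LinearIndependent.iff_fractionRing k[X] (RatFunc k)).mp hli
  have hc : Fintype.card (Fin (Module.finrank (RatFunc k) K)) = Module.finrank (RatFunc k) K :=
    Fintype.card_fin _
  by_cases hn : Nonempty (Fin (Module.finrank (RatFunc k) K))
  swap
  · exact absurd ⟨⟨0, Module.finrank_pos⟩⟩ hn
  refine ⟨basisOfLinearIndependentOfCardEqFinrank hli' hc, fun x => ⟨fun hx => ?_, ?_⟩⟩
  · refine ⟨fun i => B₀.repr ⟨x, hx⟩ i, ?_⟩
    have h2 := congrArg (algebraMap (RA k K) K) (B₀.sum_repr ⟨x, hx⟩)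
    rw [map_sum] at h2
    rw [coe_basisOfLinearIndependentOfCardEqFinrank]
    exact h2.symm
  · rintro ⟨p, rfl⟩
    rw [coe_basisOfLinearIndependentOfCardEqFinrank]
    refine Subalgebra.sum_mem _ fun i _ => ?_
    exact (RA k K).mul_mem (RingHom.isIntegralElem_map _) (B₀ i).2

end Pool.Agent.GBC
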