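import Pool.Agent.Lib.GBC.EDef

/-!
Module E.BasB of GBC. The integral closure `RB` of `O_∞` in `K`: a principal ideal domain, free of
rank `d = [K : k(t)]` over `O_∞`, `t⁻¹` in all maximal ideals.

PROOF. As in E.BasA with the discrete valuation ring `O_∞ = (placeInfty k).ring` (a PID, fraction field
`k(t)`) instead of `k[X]`: `letI := (cO k K).toAlgebra`; `RB` is a Dedekind domain, free of rank `d`. A
maximal ideal `m` of `RB` lies over the maximal ideal of `O_∞` (integrality,
`Ideal.isMaximal_comap_of_isIntegral_of_isMaximal`), which contains `X⁻¹`: `radRB`. So the maximal ideals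
contain `t⁻¹ ≠ 0`; a nonzero ideal of a Dedekind domain has finitely many prime divisors
(`IsDedekindDomain.HeightOneSpectrum`, `Ideal.finite_factors`), so `RB` has finitely many prime ideals and
is a PID (`IsPrincipalIdealRing.of_finite_primes`).
`exhRB`: `x ∈ K` is `∑ y_i b_i` with `y_i ∈ k(t)`, and `X⁻¹ ^ n y_i ∈ O_∞` for `n` large
(`mem_placeInfty_iff`).
-/

set_option autoImplicit false

open Polynomial

namespace Pool.Agent.GBC

open Pool.Agent.BSDP Pool.Agent.BSDFF Pool.Agent.HYP

variable (k K : Type) [Field k] [Field K] [Algebra k K] [Algebra (RatFunc k) K]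
  [IsScalarTower k (RatFunc k) K] [FiniteDimensional (RatFunc k) K]
  [Algebra.IsSeparable (RatFunc k) K]

/-- `O_∞` -/
private abbrev BasB_O : Type := (placeInfty k).ring

/-- `K` over `O_∞` -/
private noncomputable abbrev BasB_alg : Algebra (BasB_O k) K := (cO k K).toAlgebra

/-- `RB` over `O_∞` -/
private noncomputable abbrev BasB_algR : Algebra (BasB_O k) (RB k K) :=
  ((cO k K).codRestrict (RB k K) (fun _ => RingHom.isIntegralElem_map _)).toAlgebra

private theorem BasB_tower :
    letI := BasB_alg k K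
    IsScalarTower (BasB_O k) (RatFunc k) K := by
  let := BasB_alg k K
  exact IsScalarTower.of_algebraMap_eq (fun _ => rfl)

private theorem BasB_towerR :
    letI := BasB_alg k K
    letI := BasB_algR k K
    IsScalarTower (BasB_O k) (RB k K) K := by
  let := BasB_alg k K
  let := BasB_algR k K
  exact IsScalarTower.of_algebraMap_eq (fun _ => rfl)

private theorem BasB_closure :
    letI := BasB_alg k K
    IsIntegralClosure (RB k K) (BasB_O k) K := by
  let := BasB_alg k K
  refine ⟨Subtype.coe_injective, fun {x} => ⟨fun h => ⟨⟨x, h⟩, rfl⟩, ?_⟩⟩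
  rintro ⟨y, rfl⟩
  exact y.2

private theorem BasB_tf :
    letI := BasB_alg k K
    Module.IsTorsionFree (BasB_O k) K := by
  let := BasB_alg k K
  have := BasB_tower k K
  exact .trans_faithfulSMul (BasB_O k) (RatFunc k) K

private theorem BasB_ded : IsDedekindDomain (RB k K) := by
  let := BasB_alg k K
  let := BasB_algR k K
  have := BasB_tower k K
  have := BasB_towerR k K
  have := BasB_closure k K
  have : IsDiscreteValuationRing (BasB_O k) := (placeInfty k).dvr
  exact IsIntegralClosure.isDedekindDomain (BasB_O k) (RatFunc k) K (RB k K)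

private theorem BasB_int :
    letI := BasB_alg k K
    letI := BasB_algR k K
    Algebra.IsIntegral (BasB_O k) (RB k K) := by
  let := BasB_alg k K
  let := BasB_algR k K
  have := BasB_towerR k K
  have := BasB_closure k K
  exact IsIntegralClosure.isIntegral_algebra (BasB_O k) K

private theorem BasB_invmem : (tK k K)⁻¹ ∈ RB k K := by
  have h : (tK k K)⁻¹ = cO k K (sInf k) := by
    rw [tK, ← map_inv₀]
    rfl
  rw [h]
  exact RingHom.isIntegralElem_map _

private theorem BasB_rad (m : Ideal (RB k K)) (hm : m.IsMaximal) :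
    (⟨(tK k K)⁻¹, BasB_invmem k K⟩ : RB k K) ∈ m := by
  let := BasB_alg k K
  let := BasB_algR k K
  have := BasB_int k K
  have h1 : (m.comap (algebraMap (BasB_O k) (RB k K))).IsMaximal :=
    Ideal.isMaximal_comap_of_isIntegral_of_isMaximal m
  have h2 := IsLocalRing.eq_maximalIdeal h1
  have h3 : sInf k ∈ m.comap (algebraMap (BasB_O k) (RB k K)) := by
    rw [h2, maximalIdeal_infty]
    exact Ideal.mem_span_singleton_self _
  rw [Ideal.mem_comap] at h3
  convert h3 using 1
  apply Subtype.ext
  change (tK k K)⁻¹ = cO k K (sInf k)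
  rw [tK, ← map_inv₀]
  rfl

private theorem BasB_pid : IsPrincipalIdealRing (RB k K) := by
  have := BasB_ded k K
  have h0 : (⟨(tK k K)⁻¹, BasB_invmem k K⟩ : RB k K) ≠ 0 := by
    intro h
    have h1 := congrArg Subtype.val h
    change (tK k K)⁻¹ = 0 at h1
    rw [inv_eq_zero, tK, map_eq_zero] at h1
    exact RatFunc.X_ne_zero h1
  apply IsPrincipalIdealRing.of_finite_maximals
  have hI : Ideal.span {(⟨(tK k K)⁻¹, BasB_invmem k K⟩ : RB k K)} ≠ 0 := by
    rw [Ne, Ideal.zero_eq_bot, Ideal.span_singleton_eq_bot]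
    exact h0
  have h2 := Ideal.finite_factors hI
  refine (h2.image fun v => v.asIdeal).subset ?_
  intro m hm
  have hm' : m.IsMaximal := hm
  have h3 := BasB_rad k K m hm'
  have h4 : m ≠ ⊥ := by
    rintro rfl
    exact h0 h3
  refine ⟨⟨m, hm'.isPrime, h4⟩, ?_, rfl⟩
  change m ∣ Ideal.span {_}
  rw [Ideal.dvd_iff_le, Ideal.span_singleton_le_iff_mem]
  exact h3

private theorem BasB_bas : ∃ b : Module.Basis (Fin (Module.finrank (RatFunc k) K)) (RatFunc k) K,
    ∀ x : K, x ∈ RB k K ↔ ∃ p : Fin (Module.finrank (RatFunc k) K) → (placeInfty k).ring,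
      x = ∑ i, cO k K (p i) * b i := by
  let := BasB_alg k K
  let := BasB_algR k K
  have := BasB_tower k K
  have := BasB_towerR k K
  have := BasB_closure k K
  have := BasB_tf k K
  have : IsDiscreteValuationRing (BasB_O k) := (placeInfty k).dvr
  have : Module.Free (BasB_O k) (RB k K) :=
    IsIntegralClosure.module_free (BasB_O k) (RatFunc k) K (RB k K)
  have : Module.Finite (BasB_O k) (RB k K) :=
    IsIntegralClosure.finite (BasB_O k) (RatFunc k) K (RB k K)
  have hr : Module.finrank (BasB_O k) (RB k K) = Module.finrank (RatFunc k) K :=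
    IsIntegralClosure.rank (BasB_O k) (RatFunc k) K (RB k K)
  let B₀ : Module.Basis (Fin (Module.finrank (RatFunc k) K)) (BasB_O k) (RB k K) :=
    (Module.finBasis (BasB_O k) (RB k K)).reindex (finCongr hr)
  have hli : LinearIndependent (BasB_O k) (fun i => (B₀ i : K)) := by
    have h1 := B₀.linearIndependent
    exact h1.map' (Algebra.linearMap (RB k K) K |>.restrictScalars (BasB_O k))
      (LinearMap.ker_eq_bot.mpr Subtype.coe_injective)
  have hli' : LinearIndependent (RatFunc k) (fun i => (B₀ i : K)) :=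
    (LinearIndependent.iff_fractionRing (BasB_O k) (RatFunc k)).mp hli
  have hc : Fintype.card (Fin (Module.finrank (RatFunc k) K)) = Module.finrank (RatFunc k) K :=
    Fintype.card_fin _
  by_cases hn : Nonempty (Fin (Module.finrank (RatFunc k) K))
  swap
  · exact absurd ⟨⟨0, Module.finrank_pos⟩⟩ hn
  refine ⟨basisOfLinearIndependentOfCardEqFinrank hli' hc, fun x => ⟨fun hx => ?_, ?_⟩⟩
  · refine ⟨fun i => B₀.repr ⟨x, hx⟩ i, ?_⟩
    have h2 := congrArg (algebraMap (RB k K) K) (B₀.sum_repr ⟨x, hx⟩)
    rw [map_sum] at h2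
    rw [coe_basisOfLinearIndependentOfCardEqFinrank]
    exact h2.symm
  · rintro ⟨p, rfl⟩
    rw [coe_basisOfLinearIndependentOfCardEqFinrank]
    refine Subalgebra.sum_mem _ fun i _ => ?_
    exact (RB k K).mul_mem (RingHom.isIntegralElem_map _) (B₀ i).2

theorem pidRB : IsPrincipalIdealRing (RB k K) := BasB_pid k K

theorem invRB : (tK k K)⁻¹ ∈ RB k K := BasB_invmem k K

theorem radRB : ∀ m : Ideal (RB k K), m.IsMaximal → (⟨(tK k K)⁻¹, invRB k K⟩ : RB k K) ∈ m :=
  fun m hm => BasB_rad k K m hm

theorem basB : ∃ b : Module.Basis (Fin (Module.finrank (RatFunc k) K)) (RatFunc k) K,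
    ∀ x : K, x ∈ RB k K ↔ ∃ p : Fin (Module.finrank (RatFunc k) K) → (placeInfty k).ring,
      x = ∑ i, cO k K (p i) * b i := BasB_bas k K

theorem exhRB : ∀ x : K, ∃ n : ℕ, (tK k K)⁻¹ ^ n * x ∈ RB k K := by
  intro x
  obtain ⟨b, hb⟩ := BasB_bas k K
  let N : ℕ := ∑ i, ((b.repr x i).intDegree).toNat
  have hN : ∀ i, ((b.repr x i).intDegree).toNat ≤ N := fun i =>
    Finset.single_le_sum (f := fun i => ((b.repr x i).intDegree).toNat)
      (fun _ _ => Nat.zero_le _) (Finset.mem_univ i)
  have hmem : ∀ i, (RatFunc.X⁻¹ : RatFunc k) ^ N * b.repr x i ∈ (placeInfty k).ring := by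
    intro i
    rw [mem_placeInfty_iff]
    rcases eq_or_ne (b.repr x i) 0 with h0 | h0
    · left
      rw [h0, mul_zero]
    · right
      have hX : ∀ n : ℕ, ((RatFunc.X⁻¹ : RatFunc k) ^ n).intDegree = -(n : ℤ) := by
        intro n
        induction n with
        | zero => simp
        | succ n ih =>
          rw [pow_succ, RatFunc.intDegree_mul (pow_ne_zero _ (inv_ne_zero RatFunc.X_ne_zero))
            (inv_ne_zero RatFunc.X_ne_zero), ih, RatFunc.intDegree_inv, RatFunc.intDegree_X]
          push_cast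
          ring
      rw [RatFunc.intDegree_mul (pow_ne_zero _ (inv_ne_zero RatFunc.X_ne_zero)) h0, hX]
      have h1 := hN i
      have h2 := Int.self_le_toNat ((b.repr x i).intDegree)
      omega
  refine ⟨N, ?_⟩
  rw [hb]
  refine ⟨fun i => ⟨(RatFunc.X⁻¹ : RatFunc k) ^ N * b.repr x i, hmem i⟩, ?_⟩
  have hx : x = ∑ i, algebraMap (RatFunc k) K (b.repr x i) * b i := by
    conv_lhs => rw [← b.sum_repr x]
    simp [Algebra.smul_def]
  conv_lhs => rw [hx]
  rw [Finset.mul_sum]
  refine Finset.sum_congr rfl fun i _ => ?_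
  change _ = algebraMap (RatFunc k) K ((RatFunc.X⁻¹ : RatFunc k) ^ N * b.repr x i) * b i
  rw [map_mul, map_pow, map_inv₀, tK]
  ring

end Pool.Agent.GBC
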