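import Pool.Agent.Lib.GBC.EDef

/-!
Module E.Inter of GBC. `A ∩ t⁻¹ B = 0`; every place of `K` contains `A` or `B`.

PROOF. `interRAB`: `x ∈ RA`, `t x ∈ RB`. Let `P = minpoly (RatFunc k) x`, of degree `r`. As `x` is integral
over `k[X]`, integrally closed, the coefficients of `P` are polynomials
(`minpoly.isIntegrallyClosed_eq_field_fractions`). The minimal polynomial of `t x` over `k(t)` is
`P.scaleRoots X` (monic of the same degree, irreducible), with coefficients `c_i X ^ (r - i)`, and they
are in `O_∞` (the same lemma for `O_∞`). So `c_i` is a polynomial with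
`deg c_i + (r - i) ≤ 0` or zero: `c_i = 0` for `i < r` (`mem_placeInfty_iff`). So `P = X ^ r`, irreducible,
`r = 1`, `x = 0`.
`placesRAB`: if `t ∈ w.ring` then `cX` maps into `w.ring` (constants are in `w.ring`), and `w.ring` is
integrally closed in `K`, so `RA ≤ w.ring`. If `t ∉ w.ring` then `t⁻¹` is in the maximal ideal of
`w.ring`, and `O_∞` maps into `w.ring`: an element of `O_∞` is `0` or `p / q` with `deg p ≤ deg q`
(`mem_placeInfty_iff`), i.e. `p' (t⁻¹) / q' (t⁻¹)` with polynomials `p', q'`, `q' (0) ≠ 0`
(`Polynomial.reverse`), and `q' (t⁻¹)` is a unit of `w.ring`. Or: `w.ring ∩ k(t)` (the comap of `w.ring`,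
a valuation ring of `k(t)` containing `k` and different from `k(t)`) is `(placeInfty k).ring` by
`eq_placeInfty` (one has to see that it is a discrete valuation ring). So `RB ≤ w.ring`.
-/

set_option autoImplicit false

open Polynomial

namespace Pool.Agent.GBC

open Pool.Agent.BSDP Pool.Agent.BSDFF Pool.Agent.HYP

variable (k K : Type) [Field k] [Field K] [Algebra k K] [Algebra (RatFunc k) K]
  [IsScalarTower k (RatFunc k) K] [FiniteDimensional (RatFunc k) K]

private theorem Inter_normA (x : K) (hx : (cX k K).IsIntegralElem x) :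
    ∃ p : k[X], algebraMap k[X] (RatFunc k) p = Algebra.norm (RatFunc k) x := by
  letI : Algebra k[X] K := (cX k K).toAlgebra
  haveI : IsScalarTower k[X] (RatFunc k) K := IsScalarTower.of_algebraMap_eq (fun _ => rfl)
  have h1 : IsIntegral k[X] x := hx
  have h2 : IsIntegral k[X] (Algebra.norm (RatFunc k) x) := Algebra.isIntegral_norm (RatFunc k) h1
  exact IsIntegrallyClosed.isIntegral_iff.mp h2

private theorem Inter_normB (x : K) (hx : (cO k K).IsIntegralElem x) :
    Algebra.norm (RatFunc k) x ∈ (placeInfty k).ring := by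
  letI : Algebra (placeInfty k).ring K := (cO k K).toAlgebra
  haveI : IsScalarTower (placeInfty k).ring (RatFunc k) K := IsScalarTower.of_algebraMap_eq (fun _ => rfl)
  have h1 : IsIntegral (placeInfty k).ring x := hx
  have h2 : IsIntegral (placeInfty k).ring (Algebra.norm (RatFunc k) x) :=
    Algebra.isIntegral_norm (RatFunc k) h1
  obtain ⟨y, hy⟩ := IsIntegrallyClosed.isIntegral_iff.mp h2
  rw [← hy]
  exact y.2

theorem interRAB : ∀ x ∈ RA k K, tK k K * x ∈ RB k K → x = 0 := by
  intro x hx hy
  by_contra hx0
  obtain ⟨p, hp⟩ := Inter_normA k K x hx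
  have hn := Inter_normB k K _ hy
  have hN0 : Algebra.norm (RatFunc k) x ≠ 0 := by
    rw [Ne, Algebra.norm_eq_zero_iff]
    exact hx0
  have h1 : Algebra.norm (RatFunc k) (tK k K * x) =
      RatFunc.X ^ Module.finrank (RatFunc k) K * Algebra.norm (RatFunc k) x := by
    rw [map_mul, tK, Algebra.norm_algebraMap]
  rw [h1, mem_placeInfty_iff] at hn
  have hX : (RatFunc.X ^ Module.finrank (RatFunc k) K : RatFunc k) ≠ 0 :=
    pow_ne_zero _ RatFunc.X_ne_zero
  have h2 := hn.resolve_left (mul_ne_zero hX hN0)
  have h3 : (RatFunc.X ^ Module.finrank (RatFunc k) K : RatFunc k).intDegree =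
      Module.finrank (RatFunc k) K := by
    have : (RatFunc.X ^ Module.finrank (RatFunc k) K : RatFunc k) =
        algebraMap k[X] (RatFunc k) (X ^ Module.finrank (RatFunc k) K) := by
      rw [map_pow, RatFunc.algebraMap_X]
    rw [this, RatFunc.intDegree_polynomial, natDegree_X_pow]
  rw [RatFunc.intDegree_mul hX hN0, h3, ← hp, RatFunc.intDegree_polynomial] at h2
  have h4 : 0 < Module.finrank (RatFunc k) K := Module.finrank_pos
  omega

omit [Algebra (RatFunc k) K] [IsScalarTower k (RatFunc k) K] [FiniteDimensional (RatFunc k) K] in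
private theorem Inter_int {R : Type*} [CommRing R] (w : Place k K) (f : R →+* K)
    (hf : ∀ r, f r ∈ w.ring) (a : K) (ha : f.IsIntegralElem a) : a ∈ w.ring := by
  obtain ⟨P, hP, hPa⟩ := ha
  have h1 : IsIntegral w.ring a := by
    refine ⟨P.map (f.codRestrict w.ring.toSubring hf), hP.map _, ?_⟩
    rw [eval₂_map]
    have : (algebraMap w.ring K).comp (f.codRestrict w.ring.toSubring hf) = f := by
      ext r
      rfl
    rw [this]
    exact hPa
  obtain ⟨y, hy⟩ := IsIntegrallyClosed.isIntegral_iff.mp h1
  rw [← hy]
  exact y.2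

theorem placesRAB (w : Place k K) : (∀ a ∈ RA k K, a ∈ w.ring) ∨ (∀ b ∈ RB k K, b ∈ w.ring) := by
  by_cases ht : tK k K ∈ w.ring
  · left
    intro a ha
    refine Inter_int k K w (cX k K) ?_ a ha
    intro p
    induction p using Polynomial.induction_on' with
    | add p q hp hq =>
      rw [map_add]
      exact add_mem hp hq
    | monomial n c =>
      rw [← C_mul_X_pow_eq_monomial, map_mul, map_pow]
      refine mul_mem ?_ (pow_mem ?_ n)
      · have h : cX k K (C c) = algebraMap k K c := by
          rw [cX, RingHom.comp_apply, IsScalarTower.algebraMap_apply k (RatFunc k) K]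
          congr 1
        rw [h]
        exact w.const_mem c
      · have h : cX k K X = tK k K := by
          rw [cX, RingHom.comp_apply, RatFunc.algebraMap_X, tK]
        rw [h]
        exact ht
  · right
    intro b hb
    refine Inter_int k K w (cO k K) ?_ b hb
    intro z
    classical
    set w' : ValuationSubring (RatFunc k) := w.ring.comap (algebraMap (RatFunc k) K) with hw'
    have hX : RatFunc.X ∉ w' := fun h => ht h
    have hc : ∀ c : k, algebraMap k (RatFunc k) c ∈ w' := by
      intro c
      change algebraMap (RatFunc k) K (algebraMap k (RatFunc k) c) ∈ w.ring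
      rw [← IsScalarTower.algebraMap_apply k (RatFunc k) K]
      exact w.const_mem c
    have h1 : 1 < w'.valuation RatFunc.X := by
      rw [← not_le, ValuationSubring.valuation_le_one_iff]
      exact hX
    have htriv : w'.valuation.IsTrivialOn k := ⟨fun c hc0 => by
      apply le_antisymm
      · exact (ValuationSubring.valuation_le_one_iff _ _).mpr (hc c)
      · have h2 : w'.valuation (algebraMap k (RatFunc k) c) *
            w'.valuation (algebraMap k (RatFunc k) c⁻¹) = 1 := by
          rw [← map_mul, ← map_mul, mul_inv_cancel₀ hc0, map_one, map_one]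
        have h3 : w'.valuation (algebraMap k (RatFunc k) c⁻¹) ≤ 1 :=
          (ValuationSubring.valuation_le_one_iff _ _).mpr (hc _)
        calc (1 : w'.ValueGroup) = w'.valuation (algebraMap k (RatFunc k) c) *
            w'.valuation (algebraMap k (RatFunc k) c⁻¹) := h2.symm
          _ ≤ w'.valuation (algebraMap k (RatFunc k) c) * 1 := by gcongr
          _ = _ := mul_one _⟩
    have h4 := RatFunc.valuation_isEquiv_inftyValuation_of_one_lt_valuation_X (v := w'.valuation) h1
    have h5 := (Valuation.isEquiv_iff_valuationSubring _ _).mp h4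
    rw [ValuationSubring.valuationSubring_valuation] at h5
    have hz : (z : RatFunc k) ∈ w' := by
      rw [h5]
      exact z.2
    exact hz

end Pool.Agent.GBC
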