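import Pool.Agent.Lib.GBC.E.BasA
import Pool.Agent.Lib.GBC.E.BasB
import Pool.Agent.Lib.GBC.E.Inter

/-!
Module E.Cofin of GBC. `dim A ∩ B < ∞`, `dim K / (A + B) < ∞`, `dim B / (t⁻¹) = d`.

PROOF. `quotRB`: with the basis `b` of `basB` `RB = ⊕ O_∞ b_i`, `t⁻¹ RB = ⊕ t⁻¹ O_∞ b_i` and
`O_∞ / (X⁻¹)` is `k` (`constMap_infty_surjective`, `maximalIdeal_infty`): the map
`RB → k ^ d`, `∑ p_i b_i ↦ (p_i (∞))_i` is `k`-linear, surjective with kernel `(t⁻¹)`.
`supRAB`: `b` from `basB`, a from `basA`. There is a polynomial `e ≠ 0` with `e b_i ∈ RA` for all `i`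
(`b_i = ∑ r_ij a_j`, `r_ij ∈ k(t)`, `e` a common denominator). Every `y ∈ k(t)` is
`e p + r` with `p ∈ k[X]` and `r = 0` or `deg r < deg e` (division of the numerator of `y / e`:
`y / e = p + s`, `deg s < 0`), so `X⁻¹ ^ (deg e) r ∈ O_∞`. So `K = RA + t ^ (deg e) RB`, and `t ^ n RB / RB` has
finite dimension `d n` (as in Q.Base: multiplication by `t` and `quotRB`), so `K / (RA + RB)` is finite
dimensional. `infRAB`: an element of `RA ∩ RB`: the quotients `(A ∩ t ^ y B) / (A ∩ t ^ (y - 1) B)` embed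
in `t ^ y B / t ^ (y - 1) B` for `y = 0`, and `A ∩ t⁻¹ B = 0` (`interRAB`): `dim (A ∩ B) ≤ d`.
-/

set_option autoImplicit false

open Polynomial

namespace Pool.Agent.GBC

open Pool.Agent.BSDP Pool.Agent.BSDFF Pool.Agent.HYP

variable (k K : Type) [Field k] [Field K] [Algebra k K] [Algebra (RatFunc k) K]
  [IsScalarTower k (RatFunc k) K] [FiniteDimensional (RatFunc k) K]
  [Algebra.IsSeparable (RatFunc k) K]

/-- `O_∞` -/
private abbrev Cofin_O : Type := (placeInfty k).ring

/-- the residue field at infinity -/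
private noncomputable def Cofin_eq : k ≃+* IsLocalRing.ResidueField (Cofin_O k) :=
  RingEquiv.ofBijective (placeInfty k).constMap
    ⟨RingHom.injective _, constMap_infty_surjective⟩

/-- the value at infinity -/
private noncomputable def Cofin_ev : Cofin_O k →+* k :=
  (Cofin_eq k).symm.toRingHom.comp (IsLocalRing.residue (Cofin_O k))

private theorem Cofin_ev_const (c : k) :
    Cofin_ev k ⟨algebraMap k (RatFunc k) c, (placeInfty k).const_mem c⟩ = c := by
  have h1 : IsLocalRing.residue (Cofin_O k)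
      ⟨algebraMap k (RatFunc k) c, (placeInfty k).const_mem c⟩ = (placeInfty k).constMap c := rfl
  change (Cofin_eq k).symm (IsLocalRing.residue (Cofin_O k)
    ⟨algebraMap k (RatFunc k) c, (placeInfty k).const_mem c⟩) = c
  rw [h1, RingEquiv.symm_apply_eq]
  rfl

private theorem Cofin_ev_eq_zero (y : Cofin_O k) :
    Cofin_ev k y = 0 ↔ ∃ z : Cofin_O k, (y : RatFunc k) = (RatFunc.X)⁻¹ * (z : RatFunc k) := by
  have h1 : Cofin_ev k y = 0 ↔ IsLocalRing.residue (Cofin_O k) y = 0 := by
    change (Cofin_eq k).symm (IsLocalRing.residue (Cofin_O k) y) = 0 ↔ _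
    rw [map_eq_zero_iff _ (RingEquiv.injective _)]
  rw [h1, IsLocalRing.residue_eq_zero_iff, maximalIdeal_infty, Ideal.mem_span_singleton']
  constructor
  · rintro ⟨z, hz⟩
    refine ⟨z, ?_⟩
    rw [← hz, mul_comm]
    rfl
  · rintro ⟨z, hz⟩
    refine ⟨z, Subtype.ext ?_⟩
    rw [hz, mul_comm]
    rfl

private theorem Cofin_smul_repr (b : Module.Basis (Fin (Module.finrank (RatFunc k) K))
    (RatFunc k) K) (c : k) (x : K) (i : Fin (Module.finrank (RatFunc k) K)) :
    b.repr (c • x) i = algebraMap k (RatFunc k) c * b.repr x i := by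
  rw [← algebraMap_smul (RatFunc k) c x, map_smul]
  rfl

private theorem Cofin_sum (b : Module.Basis (Fin (Module.finrank (RatFunc k) K)) (RatFunc k) K)
    (x : K) : x = ∑ i, algebraMap (RatFunc k) K (b.repr x i) * b i := by
  conv_lhs => rw [← b.sum_repr x]
  simp [Algebra.smul_def]

private theorem Cofin_repr_sum (b : Module.Basis (Fin (Module.finrank (RatFunc k) K))
    (RatFunc k) K) (p : Fin (Module.finrank (RatFunc k) K) → RatFunc k)
    (i : Fin (Module.finrank (RatFunc k) K)) :
    b.repr (∑ i, algebraMap (RatFunc k) K (p i) * b i) i = p i := by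
  have h : (∑ i, algebraMap (RatFunc k) K (p i) * b i) = ∑ i, p i • b i := by
    simp [Algebra.smul_def]
  rw [h, b.repr_sum_self]

/-- coordinates of the elements of `RB` -/
private theorem Cofin_mem (b : Module.Basis (Fin (Module.finrank (RatFunc k) K)) (RatFunc k) K)
    (hb : ∀ x : K, x ∈ RB k K ↔ ∃ p : Fin (Module.finrank (RatFunc k) K) → (placeInfty k).ring,
      x = ∑ i, cO k K (p i) * b i) (x : K) :
    x ∈ RB k K ↔ ∀ i, b.repr x i ∈ (placeInfty k).ring := by
  rw [hb]
  constructor
  · rintro ⟨p, rfl⟩ i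
    have := Cofin_repr_sum k K b (fun i => (p i : RatFunc k)) i
    have e : (∑ i, cO k K (p i) * b i) = ∑ i, algebraMap (RatFunc k) K (p i : RatFunc k) * b i :=
      rfl
    rw [e, this]
    exact (p i).2
  · intro h
    exact ⟨fun i => ⟨b.repr x i, h i⟩, Cofin_sum k K b x⟩

private theorem Cofin_map : ∃ f : RB k K →ₗ[k] (Fin (Module.finrank (RatFunc k) K) → k),
    Function.Surjective f ∧
      ∀ x, f x = 0 ↔ ∃ y : RB k K, (x : K) = (tK k K)⁻¹ * (y : K) := by
  obtain ⟨b, hb⟩ := basB k K
  have hm := Cofin_mem k K b hb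
  let f : RB k K →ₗ[k] (Fin (Module.finrank (RatFunc k) K) → k) :=
    { toFun := fun x i => Cofin_ev k ⟨b.repr (x : K) i, (hm _).mp x.2 i⟩
      map_add' := fun x y => by
        funext i
        rw [Pi.add_apply, ← map_add]
        congr 1
        apply Subtype.ext
        change b.repr ((x : K) + y) i = b.repr (x : K) i + b.repr (y : K) i
        rw [map_add]
        rfl
      map_smul' := fun c x => by
        funext i
        change _ = c * _
        conv_rhs => rw [← Cofin_ev_const k c]
        rw [← map_mul]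
        congr 1
        apply Subtype.ext
        change b.repr (c • (x : K)) i = algebraMap k (RatFunc k) c * b.repr (x : K) i
        exact Cofin_smul_repr k K b c x i }
  have hf : ∀ x i, f x i = Cofin_ev k ⟨b.repr (x : K) i, (hm _).mp x.2 i⟩ := fun x i => rfl
  refine ⟨f, ?_, ?_⟩
  · intro c
    let x : K := ∑ i, algebraMap (RatFunc k) K (algebraMap k (RatFunc k) (c i)) * b i
    have hx : ∀ i, b.repr x i = algebraMap k (RatFunc k) (c i) := fun i =>
      Cofin_repr_sum k K b (fun i => algebraMap k (RatFunc k) (c i)) i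
    have hx' : x ∈ RB k K := (hm _).mpr fun i => by
      rw [hx]
      exact (placeInfty k).const_mem _
    refine ⟨⟨x, hx'⟩, ?_⟩
    funext i
    rw [hf]
    conv_rhs => rw [← Cofin_ev_const k (c i)]
    congr 1
    exact Subtype.ext (hx i)
  · intro x
    constructor
    · intro h0
      have h1 : ∀ i, ∃ z : Cofin_O k, b.repr (x : K) i = (RatFunc.X)⁻¹ * (z : RatFunc k) :=
        fun i => (Cofin_ev_eq_zero k _).mp (congrFun h0 i)
      choose z hz using h1
      refine ⟨⟨∑ i, cO k K (z i) * b i, (hb _).mpr ⟨z, rfl⟩⟩, ?_⟩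
      change (x : K) = (tK k K)⁻¹ * ∑ i, cO k K (z i) * b i
      rw [Finset.mul_sum, Cofin_sum k K b (x : K)]
      refine Finset.sum_congr rfl fun i _ => ?_
      rw [hz i, map_mul, map_inv₀, mul_assoc]
      rfl
    · rintro ⟨y, hy⟩
      funext i
      refine (Cofin_ev_eq_zero k _).mpr ⟨⟨b.repr (y : K) i, (hm _).mp y.2 i⟩, ?_⟩
      change b.repr (x : K) i = (RatFunc.X)⁻¹ * b.repr (y : K) i
      have e : (x : K) = (RatFunc.X : RatFunc k)⁻¹ • (y : K) := by
        rw [hy, Algebra.smul_def, map_inv₀]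
        rfl
      rw [e, map_smul]
      rfl

private theorem Cofin_equiv : Nonempty
    ((RB k K ⧸ Ideal.span {(⟨(tK k K)⁻¹, invRB k K⟩ : RB k K)}) ≃ₗ[k]
      (Fin (Module.finrank (RatFunc k) K) → k)) := by
  obtain ⟨f, hf, hk⟩ := Cofin_map k K
  let I : Ideal (RB k K) := Ideal.span {(⟨(tK k K)⁻¹, invRB k K⟩ : RB k K)}
  have hker : LinearMap.ker f = I.restrictScalars k := by
    ext x
    rw [LinearMap.mem_ker, hk, Submodule.restrictScalars_mem, Ideal.mem_span_singleton']
    constructor
    · rintro ⟨y, hy⟩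
      refine ⟨y, Subtype.ext ?_⟩
      rw [hy, mul_comm]
      rfl
    · rintro ⟨y, hy⟩
      refine ⟨y, ?_⟩
      rw [← hy, mul_comm]
      rfl
  exact ⟨(Submodule.quotEquivOfEq _ _ hker.symm).trans (f.quotKerEquivOfSurjective hf)⟩

theorem quotRB_fin :
    Module.Finite k (RB k K ⧸ Ideal.span {(⟨(tK k K)⁻¹, invRB k K⟩ : RB k K)}) := by
  obtain ⟨e⟩ := Cofin_equiv k K
  exact Module.Finite.equiv e.symm

theorem quotRB_dim :
    Module.finrank k (RB k K ⧸ Ideal.span {(⟨(tK k K)⁻¹, invRB k K⟩ : RB k K)}) =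
      Module.finrank (RatFunc k) K := by
  obtain ⟨e⟩ := Cofin_equiv k K
  rw [e.finrank_eq, Module.finrank_fintype_fun_eq_card, Fintype.card_fin]

private theorem Cofin_t : tK k K ≠ 0 := by
  rw [tK, Ne, map_eq_zero]
  exact RatFunc.X_ne_zero

theorem infRAB :
    Module.Finite k ((RA k K).toSubmodule ⊓ (RB k K).toSubmodule : Submodule k K) := by
  obtain ⟨f, -, hk⟩ := Cofin_map k K
  let g : ((RA k K).toSubmodule ⊓ (RB k K).toSubmodule : Submodule k K) →ₗ[k] RB k K :=
    { toFun := fun x => ⟨x, x.2.2⟩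
      map_add' := fun _ _ => rfl
      map_smul' := fun _ _ => rfl }
  refine Module.Finite.of_injective (f ∘ₗ g) ?_
  rw [← LinearMap.ker_eq_bot, LinearMap.ker_eq_bot']
  intro x hx
  obtain ⟨y, hy⟩ := (hk _).mp hx
  have hy' : (x : K) = (tK k K)⁻¹ * (y : K) := hy
  apply Subtype.ext
  refine interRAB k K x x.2.1 ?_
  rw [hy', mul_inv_cancel_left₀ (Cofin_t k K)]
  exact y.2

/-- division with remainder: `k(t) = k[t] + O_∞` -/
private theorem Cofin_div (y : RatFunc k) : ∃ (p : k[X]) (s : Cofin_O k),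
    y = algebraMap k[X] (RatFunc k) p + (s : RatFunc k) := by
  have hg : y.denom.Monic := RatFunc.monic_denom y
  have hd0 : algebraMap k[X] (RatFunc k) y.denom ≠ 0 := by
    simpa using RatFunc.denom_ne_zero y
  have h1 := Polynomial.modByMonic_add_div y.num y.denom
  have h2 : y = algebraMap k[X] (RatFunc k) (y.num /ₘ y.denom) +
      algebraMap k[X] (RatFunc k) (y.num %ₘ y.denom) / algebraMap k[X] (RatFunc k) y.denom := by
    conv_lhs => rw [← RatFunc.num_div_denom y]
    rw [div_eq_iff hd0, add_mul, div_mul_cancel₀ _ hd0, ← map_mul, ← map_add]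
    congr 1
    linear_combination -h1
  refine ⟨y.num /ₘ y.denom, ⟨_, ?_⟩, h2⟩
  rw [mem_placeInfty_iff]
  rcases eq_or_ne (y.num %ₘ y.denom) 0 with h3 | h3
  · left
    rw [h3, map_zero, zero_div]
  · right
    have h3' : algebraMap k[X] (RatFunc k) (y.num %ₘ y.denom) ≠ 0 := by
      simpa using h3
    rw [RatFunc.intDegree_div h3' hd0, RatFunc.intDegree_polynomial,
      RatFunc.intDegree_polynomial]
    have h4 := Polynomial.natDegree_modByMonic_le y.num hg
    omega

/-- `X ^ n O_∞ = span (X, ..., X ^ n) + O_∞` -/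
private theorem Cofin_pow (n : ℕ) (z : Cofin_O k) : ∃ (c : Fin n → k) (s : Cofin_O k),
    (RatFunc.X : RatFunc k) ^ n * (z : RatFunc k) =
      (∑ j : Fin n, algebraMap k (RatFunc k) (c j) * RatFunc.X ^ ((j : ℕ) + 1)) +
        (s : RatFunc k) := by
  induction n generalizing z with
  | zero => exact ⟨fun _ => 0, z, by simp⟩
  | succ n ih =>
    let c0 : k := Cofin_ev k z
    have h1 : Cofin_ev k (z - ⟨algebraMap k (RatFunc k) c0, (placeInfty k).const_mem c0⟩) = 0 := by
      rw [map_sub, Cofin_ev_const, sub_self]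
    obtain ⟨z', hz'⟩ := (Cofin_ev_eq_zero k _).mp h1
    have hz'' : (z : RatFunc k) - algebraMap k (RatFunc k) c0 =
        (RatFunc.X)⁻¹ * (z' : RatFunc k) := hz'
    obtain ⟨c, s, hs⟩ := ih z'
    refine ⟨Fin.snoc c c0, s, ?_⟩
    rw [Fin.sum_univ_castSucc]
    simp only [Fin.snoc_castSucc, Fin.snoc_last, Fin.val_castSucc, Fin.val_last]
    have e : (z : RatFunc k) = algebraMap k (RatFunc k) c0 + (RatFunc.X)⁻¹ * (z' : RatFunc k) := by
      rw [← hz'']; ring
    have hX : (RatFunc.X : RatFunc k) ≠ 0 := RatFunc.X_ne_zero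
    have e2 : (RatFunc.X : RatFunc k) ^ (n + 1) * ((RatFunc.X)⁻¹ * (z' : RatFunc k)) =
        RatFunc.X ^ n * (z' : RatFunc k) := by
      rw [pow_succ]
      field_simp
    rw [e, mul_add, e2, hs]
    ring

theorem supRAB :
    Module.Finite k (K ⧸ ((RA k K).toSubmodule ⊔ (RB k K).toSubmodule)) := by
  obtain ⟨b, hb⟩ := basB k K
  obtain ⟨a, ha⟩ := basA k K
  -- a common denominator
  obtain ⟨e, he⟩ := IsLocalization.exist_integer_multiples_of_finite (nonZeroDivisors k[X])
    (fun ij : Fin (Module.finrank (RatFunc k) K) × Fin (Module.finrank (RatFunc k) K) =>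
      a.repr (b ij.1) ij.2)
  have he0 : (e : k[X]) ≠ 0 := nonZeroDivisors.ne_zero e.2
  have he0' : algebraMap k[X] (RatFunc k) (e : k[X]) ≠ 0 := by simpa using he0
  have hebA : ∀ i, cX k K (e : k[X]) * b i ∈ RA k K := by
    intro i
    rw [ha]
    choose p hp using fun j => he (i, j)
    refine ⟨p, ?_⟩
    rw [Cofin_sum k K a (b i), Finset.mul_sum]
    refine Finset.sum_congr rfl fun j _ => ?_
    have := hp j
    rw [← mul_assoc]
    congr 1
    change _ = algebraMap (RatFunc k) K (algebraMap k[X] (RatFunc k) (p j))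
    rw [hp j, Algebra.smul_def, map_mul]
    rfl
  set n := (e : k[X]).natDegree with hn
  let gen : Fin (Module.finrank (RatFunc k) K) × Fin n → K := fun ij =>
    algebraMap (RatFunc k) K (RatFunc.X ^ ((ij.2 : ℕ) + 1)) * b ij.1
  set S : Submodule k K := (RA k K).toSubmodule ⊔ (RB k K).toSubmodule with hS
  have hspan : ∀ x : K, x ∈ S ⊔ Submodule.span k (Set.range gen) := by
    intro x
    have key : ∀ (y : RatFunc k) (i : Fin (Module.finrank (RatFunc k) K)),
        algebraMap (RatFunc k) K y * b i ∈ S ⊔ Submodule.span k (Set.range gen) := by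
      intro y i
      obtain ⟨p, s, hps⟩ := Cofin_div k (y / algebraMap k[X] (RatFunc k) (e : k[X]))
      rw [div_eq_iff he0'] at hps
      -- `e s = X ^ n z`
      have hz : (RatFunc.X : RatFunc k)⁻¹ ^ n * (algebraMap k[X] (RatFunc k) (e : k[X])) ∈
          (placeInfty k).ring := by
        rw [mem_placeInfty_iff]
        right
        have hX : ∀ n : ℕ, ((RatFunc.X⁻¹ : RatFunc k) ^ n).intDegree = -(n : ℤ) := by
          intro n
          induction n with
          | zero => simp
          | succ n ih =>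
            rw [pow_succ, RatFunc.intDegree_mul (pow_ne_zero _ (inv_ne_zero RatFunc.X_ne_zero))
              (inv_ne_zero RatFunc.X_ne_zero), ih, RatFunc.intDegree_inv, RatFunc.intDegree_X]
            push_cast
            ring
        rw [RatFunc.intDegree_mul (pow_ne_zero _ (inv_ne_zero RatFunc.X_ne_zero)) he0', hX,
          RatFunc.intDegree_polynomial]
        omega
      obtain ⟨c, s', hs'⟩ := Cofin_pow k n (⟨_, hz⟩ * s)
      have e1 : (algebraMap k[X] (RatFunc k) (e : k[X])) * (s : RatFunc k) =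
          (RatFunc.X : RatFunc k) ^ n * ((⟨_, hz⟩ * s : Cofin_O k) : RatFunc k) := by
        change _ = (RatFunc.X : RatFunc k) ^ n * ((RatFunc.X⁻¹ ^ n *
          algebraMap k[X] (RatFunc k) (e : k[X])) * (s : RatFunc k))
        rw [← mul_assoc, ← mul_assoc, ← mul_pow, mul_inv_cancel₀ RatFunc.X_ne_zero, one_pow,
          one_mul]
      have e2 : y = algebraMap k[X] (RatFunc k) p * algebraMap k[X] (RatFunc k) (e : k[X]) +
          ((∑ j : Fin n, algebraMap k (RatFunc k) (c j) * RatFunc.X ^ ((j : ℕ) + 1)) +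
            (s' : RatFunc k)) := by
        rw [← hs', ← e1, hps]
        ring
      have e3 : algebraMap (RatFunc k) K y * b i =
          cX k K p * (cX k K (e : k[X]) * b i) + ((∑ j : Fin n, c j • gen (i, j)) +
            cO k K s' * b i) := by
        rw [e2, map_add, map_add, map_mul, map_sum, add_mul, add_mul, Finset.sum_mul, mul_assoc]
        congr 2
        refine Finset.sum_congr rfl fun j _ => ?_
        rw [map_mul, ← IsScalarTower.algebraMap_apply k (RatFunc k) K, Algebra.smul_def, mul_assoc]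
      rw [e3]
      refine add_mem ?_ (add_mem ?_ ?_)
      · refine Submodule.mem_sup_left (Submodule.mem_sup_left ?_)
        exact (RA k K).mul_mem (RingHom.isIntegralElem_map _) (hebA i)
      · refine Submodule.mem_sup_right (Submodule.sum_mem _ fun j _ => ?_)
        exact Submodule.smul_mem _ _ (Submodule.subset_span ⟨(i, j), rfl⟩)
      · refine Submodule.mem_sup_left (Submodule.mem_sup_right ?_)
        refine (RB k K).mul_mem (RingHom.isIntegralElem_map _) ?_
        rw [hb]
        refine ⟨Pi.single i 1, ?_⟩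
        rw [Finset.sum_eq_single i]
        · rw [Pi.single_eq_same, map_one, one_mul]
        · intro j _ hj
          rw [Pi.single_eq_of_ne hj, map_zero, zero_mul]
        · intro h
          exact absurd (Finset.mem_univ i) h
    rw [Cofin_sum k K b x]
    exact Submodule.sum_mem _ fun i _ => key _ i
  have htop : Submodule.map S.mkQ (Submodule.span k (Set.range gen)) = ⊤ := by
    rw [eq_top_iff]
    rintro z -
    obtain ⟨x, rfl⟩ := S.mkQ_surjective z
    obtain ⟨u, hu, v, hv, rfl⟩ := Submodule.mem_sup.mp (hspan x)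
    refine ⟨v, hv, ?_⟩
    rw [map_add]
    have : S.mkQ u = 0 := (Submodule.Quotient.mk_eq_zero S).mpr hu
    rw [this, zero_add]
  have hfin : Module.Finite k (Submodule.span k (Set.range gen)) :=
    Module.Finite.span_of_finite k (Set.finite_range gen)
  rw [Module.finite_def, ← htop]
  exact Submodule.FG.map _ (Module.Finite.iff_fg.mp hfin)

end Pool.Agent.GBC
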