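import Pool.Agent.Lib.GBC.EDef

/-!
Module E.Der of GBC. The derivation `d/dt` of `K`, `K` a finite separable extension of `k(t)`, `k` finite.

PROOF. `exists_der`: `d/dt` on `k(t)`: the derivation `Polynomial.derivative` of `k[X]` extends to the
fraction field (`(f/g)' = (f' g - f g') / g ^ 2`; or through Kaehler differentials: `Ω[k(t)/k]` is the
localization of `Ω[k[X]/k]`, `KaehlerDifferential`). It extends to `K`: `K / k(t)` is separable, so
formally etale (`Algebra.FormallyEtale.of_isSeparable`), and `Ω[K/k] = K ⊗ Ω[k(t)/k]`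
(Mathlib/RingTheory/Etale/Kaehler.lean, `KaehlerDifferential.tensorKaehlerEquivOfFormallyEtale` or a
similar name), derivations `K → K` over `k` are linear maps `Ω[K/k] → K`. Alternatively
`K = k(t)(α)`, `P` the minimal polynomial of `α`, `D α = - P^D (α) / P' (α)` (see
Mathlib/FieldTheory/Differential/Basic.lean). Or, without any of this: use `exists_pow` and the linear
independence of `1, t, …, t ^ (p - 1)` over `K ^ p` (compare degrees) and define
`D (∑ x_i ^ p t ^ i) = ∑ i x_i ^ p t ^ (i - 1)`.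
`exists_pow`: let `x ∈ K`. As `K / k(t)` is separable, `k(t)(x) = k(t)(x ^ p)`
(`IntermediateField.adjoin_eq_adjoin_pow_expChar_of_isSeparable`), and `x ^ p` is algebraic, so
`x = ∑_j r_j (x ^ p) ^ j` with `r_j ∈ k(t)`. And `r_j = f / g = f g ^ (p - 1) / g ^ p`, with
`f g ^ (p - 1) = ∑ α_n t ^ n = ∑_{i < p} (∑_m β_{mp+i} t ^ m) ^ p t ^ i`, `β ^ p = α` (`k` is perfect), so
`r_j = ∑_{i < p} s_{ji} ^ p t ^ i` with `s_{ji} ∈ k(t)`. Put `x_i = ∑_j s_{ji} x ^ j`.
`ker_der`: `D x = 0`, `x = ∑_{i < p} x_i ^ p t ^ i`, `D (x_i ^ p) = 0`. Apply `D` several times: let `i₀` be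
maximal with `x_{i₀} ≠ 0` and suppose `i₀ ≥ 1`: `D ^ i₀ x = i₀! x_{i₀} ^ p ≠ 0` (`i₀ < p`), but
`D ^ i₀ x = D ^ (i₀ - 1) (D x) = 0`. So `x = x_0 ^ p`.
-/

set_option autoImplicit false

open Polynomial

namespace Pool.Agent.GBC

open Pool.Agent.BSDP Pool.Agent.BSDFF Pool.Agent.HYP

variable (k K : Type) [Field k] [Finite k] [Field K] [Algebra k K] [Algebra (RatFunc k) K]
  [IsScalarTower k (RatFunc k) K] [FiniteDimensional (RatFunc k) K]
  [Algebra.IsSeparable (RatFunc k) K]

open TensorProduct in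
theorem exists_der : ∃ D : Derivation k K K, D (tK k K) = 1 := by
  let : Algebra k[X] K := (cX k K).toAlgebra
  have t1 : IsScalarTower k[X] (RatFunc k) K := IsScalarTower.of_algebraMap_eq (fun x => rfl)
  have t2 : IsScalarTower k k[X] K := by
    refine IsScalarTower.of_algebraMap_eq (fun c => ?_)
    change algebraMap k K c = cX k K (C c)
    rw [cX, RingHom.comp_apply, IsScalarTower.algebraMap_apply k (RatFunc k) K]
    congr 1
  have e1 : Algebra.FormallyEtale k[X] (RatFunc k) :=
    Algebra.FormallyEtale.of_isLocalization (nonZeroDivisors k[X])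
  have e2 : Algebra.FormallyEtale (RatFunc k) K := Algebra.FormallyEtale.of_isSeparable _ _
  have e3 : Algebra.FormallyEtale k[X] K := Algebra.FormallyEtale.comp k[X] (RatFunc k) K
  let D0 : Derivation k k[X] K := Polynomial.mkDerivation k (1 : K)
  let L : K ⊗[k[X]] (Ω[k[X]⁄k]) →ₗ[K] K := LinearMap.liftBaseChange K D0.liftKaehlerDifferential
  let e := KaehlerDifferential.tensorKaehlerEquivOfFormallyEtale k k[X] K
  refine ⟨(L.comp e.symm.toLinearMap).compDer (KaehlerDifferential.D k K), ?_⟩
  have hX : tK k K = algebraMap k[X] K X := by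
    change algebraMap (RatFunc k) K RatFunc.X = algebraMap (RatFunc k) K (algebraMap k[X] (RatFunc k) X)
    rw [RatFunc.algebraMap_X]
  change L (e.symm (KaehlerDifferential.D k K (tK k K))) = 1
  rw [hX, KaehlerDifferential.tensorKaehlerEquivOfFormallyEtale_symm_D_algebraMap,
    LinearMap.liftBaseChange_tmul, one_smul, Derivation.liftKaehlerDifferential_comp_D]
  exact Polynomial.mkDerivation_X k (1 : K)

/-- auxiliary: sums of `p`-th powers times `t ^ i` are stable under addition -/
private theorem eDer_add {R : Type} [CommRing R] (p : ℕ) [Fact p.Prime] [CharP R p] (t a b : R)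
    (ha : ∃ y : ℕ → R, a = ∑ i ∈ Finset.range p, y i ^ p * t ^ i)
    (hb : ∃ y : ℕ → R, b = ∑ i ∈ Finset.range p, y i ^ p * t ^ i) :
    ∃ y : ℕ → R, a + b = ∑ i ∈ Finset.range p, y i ^ p * t ^ i := by
  obtain ⟨y, rfl⟩ := ha
  obtain ⟨z, rfl⟩ := hb
  refine ⟨fun i => y i + z i, ?_⟩
  rw [← Finset.sum_add_distrib]
  refine Finset.sum_congr rfl (fun i _ => ?_)
  rw [add_pow_char, add_mul]

private theorem eDer_sum {R : Type} [CommRing R] (p : ℕ) [Fact p.Prime] [CharP R p] (t : R)
    {ι : Type} (s : Finset ι) (f : ι → R)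
    (hf : ∀ j ∈ s, ∃ y : ℕ → R, f j = ∑ i ∈ Finset.range p, y i ^ p * t ^ i) :
    ∃ y : ℕ → R, ∑ j ∈ s, f j = ∑ i ∈ Finset.range p, y i ^ p * t ^ i := by
  classical
  induction s using Finset.induction_on with
  | empty =>
    refine ⟨fun _ => 0, ?_⟩
    rw [Finset.sum_empty, eq_comm]
    refine Finset.sum_eq_zero (fun i _ => ?_)
    rw [zero_pow (Fact.out : p.Prime).ne_zero, zero_mul]
  | insert a s has ih =>
    rw [Finset.sum_insert has]
    exact eDer_add p t _ _ (hf a (Finset.mem_insert_self a s))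
      (ih (fun j hj => hf j (Finset.mem_insert_of_mem hj)))

private theorem eDer_mul {R : Type} [CommRing R] (p : ℕ) (t a c : R)
    (ha : ∃ y : ℕ → R, a = ∑ i ∈ Finset.range p, y i ^ p * t ^ i) :
    ∃ y : ℕ → R, c ^ p * a = ∑ i ∈ Finset.range p, y i ^ p * t ^ i := by
  obtain ⟨y, rfl⟩ := ha
  refine ⟨fun i => c * y i, ?_⟩
  rw [Finset.mul_sum]
  refine Finset.sum_congr rfl (fun i _ => ?_)
  rw [mul_pow, mul_assoc]

private theorem eDer_mono {R : Type} [CommRing R] (p : ℕ) [Fact p.Prime] (t b : R) (n : ℕ) :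
    ∃ y : ℕ → R, b ^ p * t ^ n = ∑ i ∈ Finset.range p, y i ^ p * t ^ i := by
  classical
  have hp : 0 < p := (Fact.out : p.Prime).pos
  refine ⟨fun i => if i = n % p then b * t ^ (n / p) else 0, ?_⟩
  rw [Finset.sum_eq_single (n % p)]
  · beta_reduce
    rw [if_pos rfl, mul_pow, mul_assoc, ← pow_mul, ← pow_add]
    congr 2
    rw [mul_comm (n / p) p]
    exact (Nat.div_add_mod n p).symm
  · intro i _ hi
    beta_reduce
    rw [if_neg hi, zero_pow hp.ne', zero_mul]
  · intro h
    exact absurd (Finset.mem_range.2 (Nat.mod_lt _ hp)) h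

private theorem eDer_poly (p : ℕ) [Fact p.Prime] [CharP k p] (f : k[X]) :
    ∃ y : ℕ → K, cX k K f = ∑ i ∈ Finset.range p, y i ^ p * tK k K ^ i := by
  have : CharP K p := charP_of_injective_algebraMap (algebraMap k K).injective p
  have : PerfectRing k p := inferInstance
  have h : cX k K f = ∑ n ∈ f.support, cX k K (C (f.coeff n) * X ^ n) := by
    rw [← map_sum, ← Polynomial.as_sum_support_C_mul_X_pow]
  rw [h]
  refine eDer_sum p (tK k K) _ _ (fun n _ => ?_)
  obtain ⟨b, hb⟩ := (bijective_frobenius k p).2 (f.coeff n)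
  rw [frobenius_def] at hb
  have hX : cX k K X = tK k K := by
    change algebraMap (RatFunc k) K (algebraMap k[X] (RatFunc k) X) = algebraMap (RatFunc k) K RatFunc.X
    rw [RatFunc.algebraMap_X]
  rw [← hb, map_mul, map_pow, map_pow, map_pow, hX]
  exact eDer_mono p (tK k K) (cX k K (C b)) n

private theorem eDer_rat (p : ℕ) [Fact p.Prime] [CharP k p] (r : RatFunc k) :
    ∃ y : ℕ → K, algebraMap (RatFunc k) K r = ∑ i ∈ Finset.range p, y i ^ p * tK k K ^ i := by
  obtain ⟨f, g, hg, rfl⟩ := IsFractionRing.div_surjective (A := k[X]) r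
  have hg0 : cX k K g ≠ 0 := by
    intro h
    have h1 : algebraMap k[X] (RatFunc k) g = 0 := (algebraMap (RatFunc k) K).injective
      (by rw [map_zero]; exact h)
    have h2 : g = 0 := (IsFractionRing.injective k[X] (RatFunc k)) (by rw [h1, map_zero])
    exact nonZeroDivisors.ne_zero hg h2
  have hp : 0 < p := (Fact.out : p.Prime).pos
  have h : algebraMap (RatFunc k) K (algebraMap k[X] (RatFunc k) f / algebraMap k[X] (RatFunc k) g) =
      ((cX k K g)⁻¹) ^ p * cX k K (f * g ^ (p - 1)) := by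
    rw [map_div₀, map_mul, map_pow]
    change cX k K f / cX k K g = _
    rw [inv_pow, div_eq_iff hg0, mul_assoc, mul_assoc, ← pow_succ,
      Nat.sub_add_cancel hp, mul_comm, mul_assoc, mul_inv_cancel₀ (pow_ne_zero _ hg0), mul_one]
  rw [h]
  exact eDer_mul p _ _ _ (eDer_poly k K p _)

private theorem eDer_charp : ∃ p : ℕ, p.Prime ∧ CharP k p ∧ ringChar k = p := by
  refine ⟨ringChar k, ?_, ringChar.charP k, rfl⟩
  have := ringChar.charP k
  rcases CharP.char_is_prime_or_zero k (ringChar k) with h | h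
  · exact h
  · exact absurd h (CharP.ringChar_ne_zero_of_finite k)

theorem exists_pow (x : K) : ∃ y : ℕ → K,
    x = ∑ i ∈ Finset.range (ringChar k), y i ^ ringChar k * tK k K ^ i := by
  obtain ⟨p, hp, hk, he⟩ := eDer_charp k
  rw [he]
  have : Fact p.Prime := ⟨hp⟩
  have : CharP K p := charP_of_injective_algebraMap (algebraMap k K).injective p
  have : CharP (RatFunc k) p := charP_of_injective_algebraMap (algebraMap k (RatFunc k)).injective p
  have : ExpChar (RatFunc k) p := ExpChar.prime hp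
  have h := IntermediateField.adjoin_simple_eq_adjoin_pow_expChar_of_isSeparable' (RatFunc k) K x p
  have hx : x ∈ IntermediateField.adjoin (RatFunc k) {x ^ p} := by
    rw [← h]
    exact IntermediateField.mem_adjoin_simple_self _ _
  have hx1 : x ∈ (IntermediateField.adjoin (RatFunc k) {x ^ p}).toSubalgebra := hx
  rw [IntermediateField.adjoin_simple_toSubalgebra_of_isAlgebraic (IsAlgebraic.of_finite _ _),
    Algebra.adjoin_singleton_eq_range_aeval] at hx1
  obtain ⟨f, hf⟩ := hx1
  have hf1 : x = ∑ n ∈ f.support, algebraMap (RatFunc k) K (f.coeff n) * (x ^ p) ^ n := by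
    have h2 : aeval (x ^ p) f = x := hf
    conv_lhs => rw [← h2]
    rw [aeval_def, eval₂_eq_sum, Polynomial.sum_def]
  rw [hf1]
  refine eDer_sum p (tK k K) _ _ (fun n _ => ?_)
  rw [← pow_mul, mul_comm p n, pow_mul, mul_comm]
  exact eDer_mul p _ _ _ (eDer_rat k K p _)

private theorem eDer_eval {K : Type} [Field K] (D : Derivation ℤ K K) (t : K) (Q : K[X])
    (hQ : ∀ i, D (Q.coeff i) = 0) : D (eval t Q) = eval t (derivative Q) * D t := by
  rw [Polynomial.eval_eq_sum_range, Polynomial.derivative_eval, map_sum, Polynomial.sum_over_range,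
    Finset.sum_mul]
  · refine Finset.sum_congr rfl (fun n _ => ?_)
    rw [Derivation.leibniz, hQ, smul_zero, add_zero, Derivation.leibniz_pow, smul_eq_mul,
      smul_eq_mul, nsmul_eq_mul]
    ring
  · intro n
    rw [zero_mul, zero_mul]

private theorem eDer_ind {K : Type} [Field K] (p : ℕ) [Fact p.Prime] [CharP K p]
    (D : Derivation ℤ K K) (t : K) (ht : D t ≠ 0) (n : ℕ) : ∀ Q : K[X],
    (∀ i, D (Q.coeff i) = 0) → Q.natDegree = n → n < p → eval t Q = 0 → Q = 0 := by
  induction n with
  | zero =>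
    intro Q _ h0 _ h
    rw [Polynomial.eq_C_of_natDegree_eq_zero h0] at h ⊢
    rw [eval_C] at h
    rw [h, C_0]
  | succ n ih =>
    intro Q hQ hn hp h
    exfalso
    have hc : ((n + 1 : ℕ) : K) ≠ 0 := by
      intro h1
      rw [CharP.cast_eq_zero_iff K p] at h1
      exact absurd (Nat.le_of_dvd (Nat.succ_pos n) h1) (not_le.2 hp)
    have hlc : Q.coeff (n + 1) ≠ 0 := by
      rw [← hn, Polynomial.coeff_natDegree, Ne, Polynomial.leadingCoeff_eq_zero]
      intro h0
      rw [h0, natDegree_zero] at hn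
      exact absurd hn.symm (Nat.succ_ne_zero n)
    have hco : (derivative Q).coeff n ≠ 0 := by
      rw [Polynomial.coeff_derivative]
      refine mul_ne_zero hlc ?_
      have h1 := hc
      push_cast at h1
      exact h1
    have hdeg : (derivative Q).natDegree = n := by
      refine le_antisymm ?_ (Polynomial.le_natDegree_of_ne_zero hco)
      have := Polynomial.natDegree_derivative_le Q
      omega
    have h1 := eDer_eval D t Q hQ
    rw [h, map_zero, eq_comm, mul_eq_zero, or_iff_left ht] at h1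
    have h2 := ih (derivative Q) ?_ hdeg (by omega) h1
    · rw [h2, coeff_zero] at hco
      exact hco rfl
    · intro i
      rw [Polynomial.coeff_derivative]
      have : Q.coeff (i + 1) * ((i : K) + 1) = (i + 1) • Q.coeff (i + 1) := by
        rw [nsmul_eq_mul]
        push_cast
        ring
      rw [this, map_nsmul, hQ, smul_zero]

theorem ker_der (D : Derivation k K K) (hD : D (tK k K) ≠ 0) (x : K) (hx : D x = 0) :
    ∃ y : K, x = y ^ ringChar k := by
  classical
  obtain ⟨y, hy⟩ := exists_pow k K x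
  obtain ⟨p, hp, hk, he⟩ := eDer_charp k
  rw [he] at hy ⊢
  have : Fact p.Prime := ⟨hp⟩
  have : CharP K p := charP_of_injective_algebraMap (algebraMap k K).injective p
  let D1 : Derivation ℤ K K := D.restrictScalars ℤ
  let Q : K[X] := ∑ i ∈ Finset.range p, C (y i ^ p) * X ^ i
  have hQc : ∀ i, Q.coeff i = if i < p then y i ^ p else 0 := by
    intro i
    change (∑ i ∈ Finset.range p, C (y i ^ p) * X ^ i).coeff i = _
    rw [Polynomial.finsetSum_coeff]
    simp only [coeff_C_mul_X_pow]
    rw [Finset.sum_ite_eq]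
    simp only [Finset.mem_range]
  have hDp : ∀ z : K, D1 (z ^ p) = 0 := by
    intro z
    rw [Derivation.leibniz_pow, nsmul_eq_mul, CharP.cast_eq_zero, zero_mul]
  have hQ : ∀ i, D1 (Q.coeff i) = 0 := by
    intro i
    rw [hQc]
    split_ifs
    · exact hDp _
    · exact map_zero _
  have hQ' : ∀ i, D1 ((derivative Q).coeff i) = 0 := by
    intro i
    rw [Polynomial.coeff_derivative]
    have : Q.coeff (i + 1) * ((i : K) + 1) = (i + 1) • Q.coeff (i + 1) := by
      rw [nsmul_eq_mul]
      push_cast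
      ring
    rw [this, map_nsmul, hQ, smul_zero]
  have hev : eval (tK k K) Q = x := by
    rw [hy]
    change eval (tK k K) (∑ i ∈ Finset.range p, C (y i ^ p) * X ^ i) = _
    rw [eval_finsetSum]
    refine Finset.sum_congr rfl (fun i _ => ?_)
    rw [eval_mul, eval_C, eval_pow, eval_X]
  have h1 := eDer_eval D1 (tK k K) Q hQ
  have hx1 : D1 x = 0 := hx
  have hD1 : D1 (tK k K) ≠ 0 := hD
  rw [hev, hx1, eq_comm, mul_eq_zero, or_iff_left hD1] at h1
  have hQdeg : Q.natDegree < p := by
    refine lt_of_le_of_lt (b := p - 1) ?_ (Nat.sub_lt hp.pos Nat.one_pos)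
    rw [Polynomial.natDegree_le_iff_coeff_eq_zero]
    intro N hN
    rw [hQc, if_neg (by omega)]
  have h2 : derivative Q = 0 := by
    refine eDer_ind p D1 (tK k K) hD1 (derivative Q).natDegree _ hQ' rfl ?_ h1
    have := Polynomial.natDegree_derivative_le Q
    omega
  have h3 : ∀ i, 0 < i → Q.coeff i = 0 := by
    intro i hi
    by_cases hip : i < p
    · have h4 : (derivative Q).coeff (i - 1) = 0 := by rw [h2, coeff_zero]
      rw [Polynomial.coeff_derivative, Nat.sub_add_cancel hi, mul_eq_zero] at h4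
      rcases h4 with h4 | h4
      · exact h4
      · exfalso
        have h5 : ((i : ℕ) : K) = 0 := by
          rw [← h4, ← Nat.cast_succ]
          congr 1
          omega
        rw [CharP.cast_eq_zero_iff K p] at h5
        exact absurd (Nat.le_of_dvd hi h5) (not_le.2 hip)
    · rw [hQc, if_neg hip]
  refine ⟨y 0, ?_⟩
  rw [← hev, Polynomial.eval_eq_sum_range, Finset.sum_eq_single 0]
  · rw [hQc, if_pos hp.pos, pow_zero, mul_one]
  · intro i _ hi
    rw [h3 i (Nat.pos_of_ne_zero hi), zero_mul]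
  · intro h
    exact absurd (Finset.mem_range.2 (Nat.succ_pos _)) h

end Pool.Agent.GBC
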