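import Pool.Agent.Lib.GBC.E.BasA
import Pool.Agent.Lib.GBC.E.BasB
import Pool.Agent.Lib.GBC.E.Der

/-!
Module E.DerAB of GBC. A derivation which preserves `A` and is bounded at infinity.

PROOF. `D` from `exists_der`, `D t = 1`. `a_i` the basis of `basA`, `b_i` the basis of `basB`. For
`p ∈ k[X]`: `D (cX p) = cX p'` (`D` is `k`-linear, Leibniz). Let `e ∈ k[X]`, `e ≠ 0`, with `e D (a_i) ∈ RA` for
all `i` (`K` is the fraction field of `RA`, and every nonzero element of `RA` divides a nonzero element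
of `k[X]`, or: `D a_i = ∑ r_ij a_j`, `r_ij ∈ k(t)`, common denominator). `D' = cX e • D`:
`D' (∑ p_i a_i) = ∑ e p_i' a_i + ∑ p_i e D a_i ∈ RA`. `D' t = cX e ≠ 0`: `ker_der` for `D'` (`D' x = 0`).
Bound: for `s ∈ O_∞` `D (cO s)` is `cO` of the derivative of `s`, which is in `O_∞` (the degree drops; the
derivative of `p / q` is `(p' q - p q') / q ^ 2`; or: `O_∞` is generated... only boundedness is needed:
write `s = p / q`, `deg p ≤ deg q`). There is `c₀` with `t ^ (- c₀) D b_i ∈ RB` for all `i` (`exhRB`). So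
`D (RB) ⊆ t ^ c₀ RB`. For `x = t ^ y β`, `β ∈ RB`: `D x = y t ^ (y - 1) β + t ^ y D β ∈ t ^ (y + c₀) RB`.
Multiplying by `cX e ∈ t ^ (deg e) RB` gives `c = c₀ + deg e`.
-/

set_option autoImplicit false

open Polynomial

namespace Pool.Agent.GBC

open Pool.Agent.BSDP Pool.Agent.BSDFF Pool.Agent.HYP

variable (k K : Type) [Field k] [Finite k] [Field K] [Algebra k K] [Algebra (RatFunc k) K]
  [IsScalarTower k (RatFunc k) K] [FiniteDimensional (RatFunc k) K]
  [Algebra.IsSeparable (RatFunc k) K]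

section aux

variable {k K}

private theorem derAB_cX_mem (p : k[X]) : cX k K p ∈ RA k K := RingHom.isIntegralElem_map _

private theorem derAB_cO_mem (s : (placeInfty k).ring) : cO k K s ∈ RB k K :=
  RingHom.isIntegralElem_map _

private theorem derAB_cX_inj {p : k[X]} (hp : p ≠ 0) : cX k K p ≠ 0 := by
  rw [cX, RingHom.comp_apply]
  intro h
  apply hp
  rw [map_eq_zero] at h
  exact RatFunc.algebraMap_injective k (by rw [h, map_zero])

private theorem derAB_cX_eq (p : k[X]) : cX k K p = aeval (tK k K) p := by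
  induction p using Polynomial.induction_on' with
  | add p q hp hq => rw [map_add, map_add, hp, hq]
  | monomial n c =>
    rw [aeval_monomial, ← C_mul_X_pow_eq_monomial, map_mul, map_pow]
    congr 1
    rw [cX, RingHom.comp_apply, IsScalarTower.algebraMap_apply k (RatFunc k) K]
    congr 1

private theorem derAB_tK_ne : tK k K ≠ 0 := by
  rw [tK, Ne, map_eq_zero]
  exact RatFunc.X_ne_zero

private theorem derAB_D_cX {D : Derivation k K K} (hD : D (tK k K) = 1) (p : k[X]) :
    D (cX k K p) = cX k K (derivative p) := by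
  rw [derAB_cX_eq, derAB_cX_eq, D.map_aeval, hD, smul_eq_mul, mul_one]

private theorem derAB_den (r : RatFunc k) :
    cX k K r.denom * algebraMap (RatFunc k) K r = cX k K r.num := by
  rw [cX, RingHom.comp_apply, RingHom.comp_apply, ← map_mul]
  congr 1
  have h := RatFunc.num_div_denom r
  rw [div_eq_iff (RatFunc.algebraMap_ne_zero r.denom_ne_zero)] at h
  rw [h, mul_comm]

private theorem derAB_clear {ι : Type} [Fintype ι] (b : Module.Basis ι (RatFunc k) K)
    (hb : ∀ x : K, x ∈ RA k K ↔ ∃ p : ι → k[X], x = ∑ i, cX k K (p i) * b i) (x : K) :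
    ∃ e : k[X], e ≠ 0 ∧ cX k K e * x ∈ RA k K := by
  classical
  have hbi : ∀ i, b i ∈ RA k K := by
    intro i
    rw [hb]
    refine ⟨Pi.single i 1, ?_⟩
    rw [Finset.sum_eq_single i]
    · rw [Pi.single_eq_same, map_one, one_mul]
    · intro j _ hj
      rw [Pi.single_eq_of_ne hj, map_zero, zero_mul]
    · intro h
      exact absurd (Finset.mem_univ i) h
  rw [← b.sum_repr x]
  apply Finset.sum_induction (p := fun x => ∃ e : k[X], e ≠ 0 ∧ cX k K e * x ∈ RA k K)
  · rintro x y ⟨e, he, hx⟩ ⟨f, hf, hy⟩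
    refine ⟨e * f, mul_ne_zero he hf, ?_⟩
    have h1 : cX k K (e * f) * (x + y) =
        cX k K f * (cX k K e * x) + cX k K e * (cX k K f * y) := by
      rw [map_mul]
      ring
    rw [h1]
    exact add_mem (mul_mem (derAB_cX_mem f) hx) (mul_mem (derAB_cX_mem e) hy)
  · exact ⟨1, one_ne_zero, by rw [mul_zero]; exact zero_mem _⟩
  · intro i _
    refine ⟨((b.repr x) i).denom, ((b.repr x) i).denom_ne_zero, ?_⟩
    rw [Algebra.smul_def, ← mul_assoc, derAB_den]
    exact mul_mem (derAB_cX_mem _) (hbi i)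

private theorem derAB_clear_all {ι : Type} [Fintype ι] (b : Module.Basis ι (RatFunc k) K)
    (hb : ∀ x : K, x ∈ RA k K ↔ ∃ p : ι → k[X], x = ∑ i, cX k K (p i) * b i) (f : ι → K) :
    ∃ e : k[X], e ≠ 0 ∧ ∀ i, cX k K e * f i ∈ RA k K := by
  classical
  choose e he hf using fun i => derAB_clear b hb (f i)
  refine ⟨∏ i, e i, Finset.prod_ne_zero_iff.mpr fun i _ => he i, fun i => ?_⟩
  obtain ⟨g, hg⟩ := Finset.dvd_prod_of_mem e (Finset.mem_univ i)
  rw [hg, map_mul, mul_comm (cX k K (e i)), mul_assoc]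
  exact mul_mem (derAB_cX_mem g) (hf i)

private theorem derAB_O {D : Derivation k K K} (hD : D (tK k K) = 1) (s : (placeInfty k).ring) :
    ∃ s' : (placeInfty k).ring, D (cO k K s) = cO k K s' := by
  obtain ⟨r, hr⟩ := s
  have hq : cX k K r.denom ≠ 0 := derAB_cX_inj r.denom_ne_zero
  have hq' : (algebraMap k[X] (RatFunc k) r.denom) ≠ 0 :=
    RatFunc.algebraMap_ne_zero r.denom_ne_zero
  have h0 : cO k K ⟨r, hr⟩ = cX k K r.num / cX k K r.denom := by
    rw [eq_div_iff hq, mul_comm, ← derAB_den r]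
    rfl
  have h1 : D (cO k K ⟨r, hr⟩) = algebraMap (RatFunc k) K
      (algebraMap k[X] (RatFunc k) (r.denom * derivative r.num - r.num * derivative r.denom) /
        algebraMap k[X] (RatFunc k) (r.denom * r.denom)) := by
    rw [h0, D.leibniz_div, derAB_D_cX hD, derAB_D_cX hD, map_div₀]
    have h2 : ∀ p : k[X], algebraMap (RatFunc k) K (algebraMap k[X] (RatFunc k) p) = cX k K p :=
      fun p => rfl
    rw [h2, h2, map_sub, map_mul, map_mul, map_mul, smul_eq_mul, smul_eq_mul, smul_eq_mul]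
    field_simp
  have hm : (algebraMap k[X] (RatFunc k) (r.denom * derivative r.num - r.num * derivative r.denom) /
        algebraMap k[X] (RatFunc k) (r.denom * r.denom)) ∈ (placeInfty k).ring := ?_
  · exact ⟨⟨_, hm⟩, h1⟩
  rw [mem_placeInfty_iff] at hr ⊢
  by_cases hz : r.denom * derivative r.num - r.num * derivative r.denom = 0
  · left
    rw [hz, map_zero, zero_div]
  · right
    have hr' : r.num.natDegree ≤ r.denom.natDegree := by
      rcases hr with rfl | hr
      · simp
      · rw [RatFunc.intDegree] at hr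
        omega
    rw [RatFunc.intDegree_div (RatFunc.algebraMap_ne_zero hz)
      (RatFunc.algebraMap_ne_zero (mul_ne_zero r.denom_ne_zero r.denom_ne_zero)),
      RatFunc.intDegree_polynomial, RatFunc.intDegree_polynomial,
      natDegree_mul r.denom_ne_zero r.denom_ne_zero]
    have h3 : (r.denom * derivative r.num - r.num * derivative r.denom).natDegree ≤
        r.denom.natDegree + r.denom.natDegree := by
      refine (natDegree_sub_le _ _).trans (max_le ?_ ?_)
      · exact natDegree_mul_le_of_le le_rfl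
          ((natDegree_derivative_le _).trans ((Nat.sub_le _ _).trans hr'))
      · exact natDegree_mul_le_of_le hr' ((natDegree_derivative_le _).trans (Nat.sub_le _ _))
    omega

private theorem derAB_zpow_mem (n : ℕ) : tK k K ^ (-(n : ℤ)) ∈ RB k K := by
  rw [zpow_neg, zpow_natCast, ← inv_pow]
  exact pow_mem (invRB k K) n

private theorem derAB_deg (e : k[X]) : tK k K ^ (-(e.natDegree : ℤ)) * cX k K e ∈ RB k K := by
  rw [derAB_cX_eq, aeval_eq_sum_range, Finset.mul_sum]
  apply sum_mem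
  intro i hi
  rw [Finset.mem_range] at hi
  obtain ⟨m, hm⟩ : ∃ m, e.natDegree = i + m := ⟨e.natDegree - i, by omega⟩
  have h1 : tK k K ^ (-(e.natDegree : ℤ)) * (e.coeff i • tK k K ^ i) =
      e.coeff i • tK k K ^ (-(m : ℤ)) := by
    rw [mul_smul_comm, hm, ← zpow_natCast (tK k K) i, ← zpow_add₀ derAB_tK_ne]
    congr 2
    push_cast
    ring
  rw [h1]
  exact (RB k K).smul_mem (derAB_zpow_mem m) _

private theorem derAB_c0 {ι : Type} [Fintype ι] (f : ι → K) :
    ∃ c : ℕ, ∀ i, tK k K ^ (-(c : ℤ)) * f i ∈ RB k K := by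
  classical
  choose n hn using fun i => exhRB k K (f i)
  refine ⟨∑ i, n i, fun i => ?_⟩
  obtain ⟨m, hm⟩ : ∃ m, ∑ i, n i = n i + m :=
    ⟨_, (Finset.add_sum_erase _ _ (Finset.mem_univ i)).symm⟩
  have h1 : tK k K ^ (-((∑ i, n i : ℕ) : ℤ)) * f i =
      tK k K ^ (-(m : ℤ)) * ((tK k K)⁻¹ ^ n i * f i) := by
    rw [hm, ← mul_assoc, inv_pow, ← zpow_natCast (tK k K) (n i), ← zpow_neg,
      ← zpow_add₀ derAB_tK_ne]
    congr 2
    push_cast
    ring
  rw [h1]
  exact mul_mem (derAB_zpow_mem m) (hn i)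

end aux

theorem derivRAB : ∃ (D : Derivation k K K) (c : ℕ), (∀ a ∈ RA k K, D a ∈ RA k K) ∧
    (∀ (y : ℤ) (x : K), tK k K ^ (-y) * x ∈ RB k K → tK k K ^ (-(y + c)) * D x ∈ RB k K) ∧
    ∀ x : K, D x = 0 → ∃ y : K, x = y ^ ringChar k := by
  obtain ⟨D, hD⟩ := exists_der k K
  obtain ⟨a, ha⟩ := basA k K
  obtain ⟨b, hb⟩ := basB k K
  obtain ⟨e, he, hea⟩ := derAB_clear_all a ha (fun i => D (a i))
  obtain ⟨c₀, hc₀⟩ := derAB_c0 (k := k) (fun i => D (b i))
  have haa : ∀ i, a i ∈ RA k K := by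
    classical
    intro i
    rw [ha]
    refine ⟨Pi.single i 1, ?_⟩
    rw [Finset.sum_eq_single i]
    · rw [Pi.single_eq_same, map_one, one_mul]
    · intro j _ hj
      rw [Pi.single_eq_of_ne hj, map_zero, zero_mul]
    · intro h
      exact absurd (Finset.mem_univ i) h
  have hbb : ∀ i, b i ∈ RB k K := by
    classical
    intro i
    rw [hb]
    refine ⟨Pi.single i 1, ?_⟩
    rw [Finset.sum_eq_single i]
    · rw [Pi.single_eq_same, map_one, one_mul]
    · intro j _ hj
      rw [Pi.single_eq_of_ne hj, map_zero, zero_mul]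
    · intro h
      exact absurd (Finset.mem_univ i) h
  have hDB : ∀ x ∈ RB k K, tK k K ^ (-(c₀ : ℤ)) * D x ∈ RB k K := by
    intro x hx
    rw [hb] at hx
    obtain ⟨p, rfl⟩ := hx
    rw [map_sum, Finset.mul_sum]
    apply sum_mem
    intro i _
    obtain ⟨s', hs'⟩ := derAB_O hD (p i)
    have h1 : tK k K ^ (-(c₀ : ℤ)) * D (cO k K (p i) * b i) =
        cO k K (p i) * (tK k K ^ (-(c₀ : ℤ)) * D (b i)) +
          tK k K ^ (-(c₀ : ℤ)) * (b i * cO k K s') := by
      rw [D.leibniz, hs', smul_eq_mul, smul_eq_mul]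
      ring
    rw [h1]
    exact add_mem (mul_mem (derAB_cO_mem _) (hc₀ i))
      (mul_mem (derAB_zpow_mem c₀) (mul_mem (hbb i) (derAB_cO_mem _)))
  refine ⟨cX k K e • D, c₀ + e.natDegree, ?_, ?_, ?_⟩
  · intro x hx
    rw [ha] at hx
    obtain ⟨p, rfl⟩ := hx
    rw [Derivation.smul_apply, map_sum, smul_eq_mul, Finset.mul_sum]
    apply sum_mem
    intro i _
    have h1 : cX k K e * D (cX k K (p i) * a i) =
        cX k K (p i) * (cX k K e * D (a i)) +
          cX k K e * (a i * cX k K (derivative (p i))) := by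
      rw [D.leibniz, derAB_D_cX hD, smul_eq_mul, smul_eq_mul]
      ring
    rw [h1]
    exact add_mem (mul_mem (derAB_cX_mem _) (hea i))
      (mul_mem (derAB_cX_mem _) (mul_mem (haa i) (derAB_cX_mem _)))
  · intro y x hx
    set β := tK k K ^ (-y) * x with hβ
    have hx' : x = tK k K ^ y * β := by
      rw [hβ, ← mul_assoc, ← zpow_add₀ derAB_tK_ne, add_neg_cancel, zpow_zero, one_mul]
    have h1 : D x = (y : K) * (tK k K ^ (y - 1) * β) + tK k K ^ y * D β := by
      rw [hx', D.leibniz, D.leibniz_zpow, hD]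
      simp only [smul_eq_mul, zsmul_eq_mul, mul_one]
      ring
    have h2 : tK k K ^ (-(y + ((c₀ + e.natDegree : ℕ) : ℤ))) * (cX k K e • D) x =
        (tK k K ^ (-(e.natDegree : ℤ)) * cX k K e) *
          ((y : K) * (tK k K ^ (-((c₀ + 1 : ℕ) : ℤ)) * β) + tK k K ^ (-(c₀ : ℤ)) * D β) := by
      have e1 : tK k K ^ (-(y + ((c₀ + e.natDegree : ℕ) : ℤ))) =
          tK k K ^ (-(e.natDegree : ℤ)) * (tK k K ^ (-(c₀ : ℤ)) * tK k K ^ (-y)) := by
        rw [← zpow_add₀ derAB_tK_ne, ← zpow_add₀ derAB_tK_ne]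
        congr 1
        push_cast
        ring
      have e2 : tK k K ^ (-y) * tK k K ^ y = 1 := by
        rw [← zpow_add₀ derAB_tK_ne, neg_add_cancel, zpow_zero]
      have e3 : tK k K ^ (-((c₀ + 1 : ℕ) : ℤ)) =
          tK k K ^ (-(c₀ : ℤ)) * (tK k K ^ (-y) * tK k K ^ (y - 1)) := by
        rw [← zpow_add₀ derAB_tK_ne, ← zpow_add₀ derAB_tK_ne]
        congr 1
        push_cast
        ring
      rw [Derivation.smul_apply, h1, smul_eq_mul, e1, e3]
      linear_combination (tK k K ^ (-(e.natDegree : ℤ)) * cX k K e * tK k K ^ (-(c₀ : ℤ)) * D β) * e2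
    rw [h2]
    refine mul_mem (derAB_deg e) (add_mem (mul_mem ?_ (mul_mem (derAB_zpow_mem _) hx))
      (hDB β hx))
    exact intCast_mem _ y
  · intro x hx
    rw [Derivation.smul_apply, smul_eq_mul] at hx
    have h3 : D x = 0 := by
      rcases mul_eq_zero.mp hx with h | h
      · exact absurd h (derAB_cX_inj he)
      · exact h
    exact ker_der k K D (by rw [hD]; exact one_ne_zero) x h3

end Pool.Agent.GBC
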