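import Pool.Agent.Lib.GBC.E.Cofin
import Pool.Agent.Lib.GBC.E.DerAB

/-!
Module E.Main of GBC. Existence of the geometry.

PROOF. Put together `RA`, `RB`, `tK`, `d = finrank (RatFunc k) K`: `dedRA`, `fracRA`, `pidRB`, `radRB`,
`exhRB`, `quotRB_fin`, `quotRB_dim`, `interRAB`, `infRAB`, `supRAB`, `placesRAB`, `derivRAB`. `t ∈ RA`:
`RingHom.isIntegralElem_map`. `t ≠ 0`: `RatFunc.X ≠ 0` and `algebraMap` is injective. `d > 0`:
`Module.finrank_pos`.
-/

set_option autoImplicit false

open Polynomial

namespace Pool.Agent.GBC

open Pool.Agent.BSDP Pool.Agent.BSDFF Pool.Agent.HYP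

variable (k K : Type) [Field k] [Finite k] [Field K] [Algebra k K] [Algebra (RatFunc k) K]
  [IsScalarTower k (RatFunc k) K] [FiniteDimensional (RatFunc k) K]
  [Algebra.IsSeparable (RatFunc k) K]

/-- The geometry of `K / k(t)`. -/
theorem exists_geo : ∃ G : Geo k K, G.A = RA k K ∧ G.B = RB k K ∧ G.t = tK k K ∧
    G.d = Module.finrank (RatFunc k) K := by
  refine ⟨{ A := RA k K, B := RB k K, t := tK k K, d := Module.finrank (RatFunc k) K,
            d_pos := Module.finrank_pos
            t_mem := ?_
            inv_mem := invRB k K
            t_ne := ?_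
            dedA := dedRA k K
            fracA := fracRA k K
            pidB := pidRB k K
            rad := radRB k K
            exh := exhRB k K
            fin_quot := quotRB_fin k K
            dim_quot := quotRB_dim k K
            inter := interRAB k K
            fin_inf := infRAB k K
            fin_sup := supRAB k K
            places := placesRAB k K
            deriv := derivRAB k K }, rfl, rfl, rfl, rfl⟩
  · have h : tK k K = cX k K X := by
      rw [tK, cX, RingHom.comp_apply, RatFunc.algebraMap_X]
    rw [h]
    exact RingHom.isIntegralElem_map _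
  · rw [tK, Ne, map_eq_zero]
    exact RatFunc.X_ne_zero

end Pool.Agent.GBC
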